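import Mathlib

/-!
# MP_d4551b_al: minimal invertible pieces of `r` and of `r ^ k` differ in general

Let `u = d a g a g⁻¹ d⁻¹ b⁻¹` and `r = b b⁻¹ u u⁻¹ a`. In `M_1 = Inv⟨a, b, d, g ∣ r = 1⟩` all prefixes
of `r` are right invertible, hence `b b⁻¹ = 1`, `u u⁻¹ = 1`, `a = 1`, `d g g⁻¹ d⁻¹ = 1` and
`u = b⁻¹`, so `b⁻¹ b = 1` and `b` is a unit: `b` is a minimal invertible piece of `r`.
In `M_k`, `k ≥ 2`, the letter `b` is not a unit: let `X = ℕ × ZMod k`, let `e : X → ℕ` be a
bijection, and let `a, b, d, g` act on `X` as the partial injections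
`(i, j) a = (i, j + 1)`, `x b = e⁻¹ (e x + 1)`, `x d = (e x, 0)`, `(i, 1) g = (i, 0)`,
`(i + 1, 0) g = (i, 1)`. Then `u` acts as the identity, `r` acts as `a`, so that `r ^ k = 1`, but `b`
is not surjective.
-/

set_option autoImplicit false

namespace Pool.Agent.Results.MP_d4551b_al.PiecesDiffer

/-- formal inverse of a word; `Sum.inl x` is the letter `x`, `Sum.inr x` the letter `x⁻¹` -/
def inv {A : Type} (w : List (A ⊕ A)) : List (A ⊕ A) := w.reverse.map Sum.swap

/-- the relations `u u⁻¹ u = u`, `u u⁻¹ v v⁻¹ = v v⁻¹ u u⁻¹` (all words `u`, `v`), and `w = 1` -/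
inductive InvRel {A : Type} (w : List (A ⊕ A)) :
    FreeMonoid (A ⊕ A) → FreeMonoid (A ⊕ A) → Prop
  | wagner (u : List (A ⊕ A)) :
      InvRel w (FreeMonoid.ofList (u ++ inv u ++ u)) (FreeMonoid.ofList u)
  | comm (u v : List (A ⊕ A)) :
      InvRel w (FreeMonoid.ofList (u ++ inv u ++ (v ++ inv v)))
        (FreeMonoid.ofList (v ++ inv v ++ (u ++ inv u)))
  | rel : InvRel w (FreeMonoid.ofList w) 1

/-- the one-relator special inverse monoid `Inv⟨A ∣ w = 1⟩` -/
abbrev M {A : Type} (w : List (A ⊕ A)) : Type := (conGen (InvRel w)).Quotient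

/-- the element of `Inv⟨A ∣ w = 1⟩` represented by the word `u` -/
def val {A : Type} (w u : List (A ⊕ A)) : M w :=
  ((FreeMonoid.ofList u : FreeMonoid (A ⊕ A)) : (conGen (InvRel w)).Quotient)

/-- `v` is a minimal invertible piece of `w` in `Inv⟨A ∣ w = 1⟩`: `w = p v s` with `v` non-empty,
where `p` and `p v` represent units and no prefix of `w` strictly between `p` and `p v` does -/
def IsPiece {A : Type} (w v : List (A ⊕ A)) : Prop :=
  v ≠ [] ∧ ∃ p s : List (A ⊕ A), w = p ++ v ++ s ∧ IsUnit (val w p) ∧ IsUnit (val w (p ++ v)) ∧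
    ∀ v₁ v₂ : List (A ⊕ A), v = v₁ ++ v₂ → v₁ ≠ [] → v₂ ≠ [] → ¬ IsUnit (val w (p ++ v₁))

/-- the set of minimal invertible pieces of `w` in `Inv⟨A ∣ w = 1⟩` -/
def Pieces {A : Type} (w : List (A ⊕ A)) : Set (List (A ⊕ A)) := {v | IsPiece w v}

/-- the word `r ^ k` -/
def pw {A : Type} (r : List (A ⊕ A)) (k : ℕ) : List (A ⊕ A) := (List.replicate k r).flatten

/-! ### Computing in `Inv⟨A ∣ w = 1⟩` -/

section basic

variable {A : Type} (w : List (A ⊕ A))

lemma val_append (u v : List (A ⊕ A)) : val w (u ++ v) = val w u * val w v := rfl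

lemma val_nil : val w [] = 1 := rfl

lemma val_cons (x : A ⊕ A) (v : List (A ⊕ A)) : val w (x :: v) = val w [x] * val w v := rfl

lemma val_wagner (u : List (A ⊕ A)) : val w u * val w (inv u) * val w u = val w u :=
  (Con.eq _).2 (ConGen.Rel.of _ _ (InvRel.wagner u))

lemma val_rel : val w w = 1 := (Con.eq _).2 (ConGen.Rel.of _ _ InvRel.rel)

lemma prefix_rinv (p s : List (A ⊕ A)) (h : w = p ++ s) : val w p * val w (inv p) = 1 := by
  have h1 : val w p * val w s = 1 := by
    rw [← val_append, ← h, val_rel]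
  calc val w p * val w (inv p) = val w p * val w (inv p) * (val w p * val w s) := by
        rw [h1, mul_one]
    _ = (val w p * val w (inv p) * val w p) * val w s := by simp only [mul_assoc]
    _ = 1 := by rw [val_wagner, h1]

end basic

/-! ### The word -/

/-- the alphabet -/
abbrev L : Type := Fin 4

/-- `u = d a g a g⁻¹ d⁻¹ b⁻¹` with `a = 0`, `b = 1`, `d = 2`, `g = 3` -/
def u : List (L ⊕ L) :=
  [Sum.inl 2, Sum.inl 0, Sum.inl 3, Sum.inl 0, Sum.inr 3, Sum.inr 2, Sum.inr 1]

/-- `r = b b⁻¹ u u⁻¹ a` -/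
def r : List (L ⊕ L) := [Sum.inl 1, Sum.inr 1] ++ u ++ inv u ++ [Sum.inl 0]

lemma unit_b : IsUnit (val r [Sum.inl 1]) := by
  set a := val r [Sum.inl 0] with ha
  set b := val r [Sum.inl 1] with hb
  set d := val r [Sum.inl 2] with hd
  set g := val r [Sum.inl 3] with hg
  set a' := val r [Sum.inr 0] with ha'
  set b' := val r [Sum.inr 1] with hb'
  set d' := val r [Sum.inr 2] with hd'
  set g' := val r [Sum.inr 3] with hg'
  have h1 : b * b' = 1 := prefix_rinv r [Sum.inl 1] _ rfl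
  have hu : val r u = d * (a * (g * (a * (g' * (d' * b'))))) := rfl
  have hu' : val r (inv u) = b * (d * (g * (a' * (g' * (a' * d'))))) := rfl
  have h2 : val r u * val r (inv u) = 1 := by
    have h := prefix_rinv r ([Sum.inl 1, Sum.inr 1] ++ u) (inv u ++ [Sum.inl 0]) rfl
    have e1 : val r ([Sum.inl 1, Sum.inr 1] ++ u) = b * b' * val r u := rfl
    have e2 : val r (inv ([Sum.inl 1, Sum.inr 1] ++ u)) = val r (inv u) * (b * b') := rfl
    rwa [e1, e2, h1, one_mul, mul_one] at h
  have h3 : a = 1 := by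
    have h := val_rel r
    have e1 : val r r = b * b' * val r u * val r (inv u) * a := rfl
    rwa [e1, h1, one_mul, h2, one_mul] at h
  have h4 : a' = 1 := by
    have h : a * a' * a = a := val_wagner r [Sum.inl 0]
    rwa [h3, one_mul, mul_one] at h
  have h5 : d * (g * (g' * d')) = 1 := by
    have h := prefix_rinv r [Sum.inl 1, Sum.inr 1, Sum.inl 2, Sum.inl 0, Sum.inl 3] _ rfl
    have e1 : val r [Sum.inl 1, Sum.inr 1, Sum.inl 2, Sum.inl 0, Sum.inl 3] =
      b * b' * (d * (a * g)) := rfl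
    have e2 : val r (inv [Sum.inl 1, Sum.inr 1, Sum.inl 2, Sum.inl 0, Sum.inl 3]) =
      g' * (a' * (d' * (b * b'))) := rfl
    rw [e1, e2, h1, h3, h4] at h
    simpa [mul_assoc] using h
  have h6 : val r u = b' := by
    rw [hu, h3]
    calc d * (1 * (g * (1 * (g' * (d' * b'))))) = d * (g * (g' * d')) * b' := by
          simp only [one_mul, mul_assoc]
      _ = b' := by rw [h5, one_mul]
  have h7 : val r (inv u) = b := by
    rw [hu', h4]
    calc b * (d * (g * (1 * (g' * (1 * d'))))) = b * (d * (g * (g' * d'))) := by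
          simp only [one_mul]
      _ = b := by rw [h5, mul_one]
  have h8 : b' * b = 1 := by rw [← h7, ← h6, h2]
  exact ⟨⟨b, b', h1, h8⟩, rfl⟩

lemma piece_b : [Sum.inl 1] ∈ Pieces r := by
  refine ⟨by simp, [], [Sum.inr 1] ++ u ++ inv u ++ [Sum.inl 0], rfl, ?_, unit_b, ?_⟩
  · rw [val_nil]
    exact isUnit_one
  · intro v₁ v₂ h h1 h2
    exfalso
    have h3 := congrArg List.length h
    rw [List.length_append] at h3
    have h4 := List.length_pos_of_ne_nil h1
    have h5 := List.length_pos_of_ne_nil h2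
    simp at h3
    omega

/-! ### Partial injections -/

/-- a partial injection of `X`, given by its graph -/
@[ext] structure T (X : Type) where
  /-- the graph -/
  R : X → X → Prop
  fn : ∀ a b b' : X, R a b → R a b' → b = b'
  inj : ∀ a a' b : X, R a b → R a' b → a = a'

variable {X : Type}

/-- the monoid of partial injections of `X`, composed from left to right -/
instance (X : Type) : Monoid (T X) where
  mul x y := ⟨fun a c => ∃ b, x.R a b ∧ y.R b c,
    fun a c c' ⟨b, h1, h2⟩ ⟨b', h1', h2'⟩ => by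
      have h := x.fn a b b' h1 h1'
      subst h
      exact y.fn b c c' h2 h2',
    fun a a' c ⟨b, h1, h2⟩ ⟨b', h1', h2'⟩ => by
      have h := y.inj b b' c h2 h2'
      subst h
      exact x.inj a a' b h1 h1'⟩
  one := ⟨fun a b => a = b, fun a b b' h h' => h.symm.trans h', fun a a' b h h' => h.trans h'.symm⟩
  mul_assoc x y z := by
    apply T.ext
    funext a d
    apply propext
    constructor
    · rintro ⟨c, ⟨b, h1, h2⟩, h3⟩
      exact ⟨b, h1, c, h2, h3⟩
    · rintro ⟨b, h1, c, h2, h3⟩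
      exact ⟨c, ⟨b, h1, h2⟩, h3⟩
  one_mul x := by
    apply T.ext
    funext a d
    apply propext
    constructor
    · rintro ⟨c, h1, h2⟩
      have h1 : a = c := h1
      subst h1
      exact h2
    · exact fun h => ⟨a, rfl, h⟩
  mul_one x := by
    apply T.ext
    funext a d
    apply propext
    constructor
    · rintro ⟨c, h1, h2⟩
      have h2 : c = d := h2
      subst h2
      exact h1
    · exact fun h => ⟨d, h, rfl⟩

lemma T.ext' {x y : T X} (h : ∀ a b, x.R a b ↔ y.R a b) : x = y := by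
  apply T.ext
  funext a b
  exact propext (h a b)

/-- the inverse partial injection -/
def T.sy (x : T X) : T X := ⟨fun a b => x.R b a, fun a b b' h h' => x.inj b b' a h h',
  fun a a' b h h' => x.fn b a a' h h'⟩

lemma T.sy_mul (x y : T X) : (x * y).sy = y.sy * x.sy := by
  apply T.ext'
  intro a b
  constructor
  · rintro ⟨c, h1, h2⟩
    exact ⟨c, h2, h1⟩
  · rintro ⟨c, h1, h2⟩
    exact ⟨c, h2, h1⟩

lemma T.sy_one : (1 : T X).sy = 1 := T.ext' fun _ _ => ⟨fun h => Eq.symm h, fun h => Eq.symm h⟩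

lemma T.wagner (x : T X) : x * x.sy * x = x := by
  apply T.ext'
  intro a b
  constructor
  · rintro ⟨c, ⟨d, h1, h2⟩, h3⟩
    have h : a = c := x.inj a c d h1 h2
    subst h
    exact h3
  · intro h
    exact ⟨a, ⟨b, h, h⟩, h⟩

lemma T.mem_idem (x : T X) (a b : X) : (x * x.sy).R a b ↔ a = b ∧ ∃ c, x.R a c := by
  constructor
  · rintro ⟨c, h1, h2⟩
    exact ⟨x.inj a b c h1 h2, c, h1⟩
  · rintro ⟨rfl, c, h⟩
    exact ⟨c, h, h⟩

lemma T.comm (x y : T X) : x * x.sy * (y * y.sy) = y * y.sy * (x * x.sy) := by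
  have key : ∀ (x y : T X) (a b : X), (x * x.sy * (y * y.sy)).R a b →
      (y * y.sy * (x * x.sy)).R a b := by
    rintro x y a b ⟨c, h1, h2⟩
    rw [T.mem_idem] at h1 h2
    obtain ⟨rfl, h1⟩ := h1
    obtain ⟨rfl, h2⟩ := h2
    exact ⟨a, (T.mem_idem y a a).2 ⟨rfl, h2⟩, (T.mem_idem x a a).2 ⟨rfl, h1⟩⟩
  exact T.ext' fun a b => ⟨key x y a b, key y x a b⟩

lemma T.total {x : T X} (h : ∀ a, ∃ c, x.R a c) : x * x.sy = 1 :=
  T.ext' fun a b => ⟨fun h' => ((T.mem_idem x a b).1 h').1,
    fun h' => (T.mem_idem x a b).2 ⟨h', h a⟩⟩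

section model

variable {A : Type} (P : A → T X)

/-- the letters act as partial injections -/
def act : A ⊕ A → T X := Sum.elim P fun a => (P a).sy

/-- the partial injection of a word -/
def ev (w : List (A ⊕ A)) : T X := FreeMonoid.lift (act P) (FreeMonoid.ofList w)

lemma ev_append (u v : List (A ⊕ A)) : ev P (u ++ v) = ev P u * ev P v :=
  map_mul (FreeMonoid.lift (act P)) (FreeMonoid.ofList u) (FreeMonoid.ofList v)

lemma ev_nil : ev P [] = 1 := map_one (FreeMonoid.lift (act P))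

lemma ev_single (x : A ⊕ A) : ev P [x] = act P x := FreeMonoid.lift_eval_of (act P) x

lemma ev_cons (x : A ⊕ A) (w : List (A ⊕ A)) : ev P (x :: w) = act P x * ev P w := by
  rw [← ev_single, ← ev_append]; rfl

lemma act_swap (x : A ⊕ A) : act P x.swap = (act P x).sy := by
  cases x <;> rfl

lemma ev_inv (w : List (A ⊕ A)) : ev P (inv w) = (ev P w).sy := by
  induction w with
  | nil => exact (ev_nil P).trans (by rw [ev_nil, T.sy_one])
  | cons x w ih =>
    have e1 : inv (x :: w) = inv w ++ [x.swap] := by simp [inv]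
    have e2 : x :: w = [x] ++ w := rfl
    rw [e1, e2, ev_append, ev_append, T.sy_mul, ih, ev_single, ev_single, act_swap]

/-- the homomorphism from the inverse monoid -/
noncomputable def hom (w : List (A ⊕ A)) (h : ev P w = 1) : M w →* T X :=
  Con.lift (conGen (InvRel w)) (FreeMonoid.lift (act P)) (by
    rw [Con.conGen_le]
    intro x y hxy
    cases hxy with
    | wagner u =>
      show ev P (u ++ inv u ++ u) = ev P u
      rw [ev_append, ev_append, ev_inv, T.wagner]
    | comm u v =>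
      show ev P (u ++ inv u ++ (v ++ inv v)) = ev P (v ++ inv v ++ (u ++ inv u))
      simp only [ev_append, ev_inv]
      exact T.comm _ _
    | rel =>
      show ev P w = ev P []
      rw [h, ev_nil])

lemma isUnit_ev {w : List (A ⊕ A)} (h : ev P w = 1) {p : List (A ⊕ A)} (hp : IsUnit (val w p)) :
    IsUnit (ev P p) := hp.map (hom P w h)

lemma ev_pw (w : List (A ⊕ A)) (k : ℕ) : ev P (pw w k) = ev P w ^ k := by
  induction k with
  | zero => rw [pow_zero]; exact ev_nil P
  | succ k ih =>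
    have e : pw w (k + 1) = w ++ pw w k := by simp [pw, List.replicate_succ]
    rw [e, ev_append, ih, pow_succ']

end model

/-! ### The example -/

section example_

variable {k : ℕ} (e : ℕ × ZMod k ≃ ℕ)

/-- `(i, j) a = (i, j + 1)` -/
def pa (k : ℕ) : T (ℕ × ZMod k) where
  R x y := y = (x.1, x.2 + 1)
  fn _ _ _ h h' := h.trans h'.symm
  inj _ _ _ h h' := by
    have h1 := h.symm.trans h'
    rw [Prod.mk.injEq, add_left_inj] at h1
    exact Prod.ext h1.1 h1.2

/-- `x b = e⁻¹ (e x + 1)` -/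
def pb : T (ℕ × ZMod k) where
  R x y := e y = e x + 1
  fn _ _ _ h h' := e.injective (h.trans h'.symm)
  inj _ _ _ h h' := e.injective (Nat.succ.inj (h.symm.trans h'))

/-- `x d = (e x, 0)` -/
def pd : T (ℕ × ZMod k) where
  R x y := y = (e x, 0)
  fn _ _ _ h h' := h.trans h'.symm
  inj _ _ _ h h' := e.injective (Prod.mk.inj (h.symm.trans h')).1

/-- `(i, 1) g = (i, 0)`, `(i + 1, 0) g = (i, 1)` -/
def pg (hk : (1 : ZMod k) ≠ 0) : T (ℕ × ZMod k) where
  R x y := (x.2 = 1 ∧ y.2 = 0 ∧ y.1 = x.1) ∨ (x.2 = 0 ∧ y.2 = 1 ∧ x.1 = y.1 + 1)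
  fn a b b' h h' := by
    rcases h with ⟨h1, h2, h3⟩ | ⟨h1, h2, h3⟩ <;> rcases h' with ⟨h1', h2', h3'⟩ | ⟨h1', h2', h3'⟩
    · exact Prod.ext (h3.trans h3'.symm) (h2.trans h2'.symm)
    · exact absurd (h1.symm.trans h1') hk
    · exact absurd (h1'.symm.trans h1) hk
    · exact Prod.ext (by omega) (h2.trans h2'.symm)
  inj a a' b h h' := by
    rcases h with ⟨h1, h2, h3⟩ | ⟨h1, h2, h3⟩ <;> rcases h' with ⟨h1', h2', h3'⟩ | ⟨h1', h2', h3'⟩
    · exact Prod.ext (h3.symm.trans h3') (h1.trans h1'.symm)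
    · exact absurd (h2'.symm.trans h2) hk
    · exact absurd (h2.symm.trans h2') hk
    · exact Prod.ext (by omega) (h1.trans h1'.symm)

/-- the action of the four letters -/
def act4 (hk : (1 : ZMod k) ≠ 0) : L → T (ℕ × ZMod k) := ![pa k, pb e, pd e, pg hk]

lemma ev_u (hk : (1 : ZMod k) ≠ 0) : ev (act4 e hk) u = 1 := by
  have e1 : ev (act4 e hk) u =
      pd e * (pa k * (pg hk * (pa k * ((pg hk).sy * ((pd e).sy * ((pb e).sy * 1)))))) := by
    simp only [u, ev_cons, ev_nil]
    rfl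
  have h : ∀ x, (ev (act4 e hk) u).R x x := by
    intro x
    rw [e1]
    refine ⟨(e x, 0), rfl, (e x, 1), ?_, (e x, 0), Or.inl ⟨rfl, rfl, rfl⟩, (e x, 1), ?_,
      (e x + 1, 0), Or.inr ⟨rfl, rfl, rfl⟩, e.symm (e x + 1), ?_, x, ?_, rfl⟩
    · show ((e x, 1) : ℕ × ZMod k) = (e x, 0 + 1)
      rw [zero_add]
    · show ((e x, 1) : ℕ × ZMod k) = (e x, 0 + 1)
      rw [zero_add]
    · show ((e x + 1, 0) : ℕ × ZMod k) = (e (e.symm (e x + 1)), 0)
      rw [e.apply_symm_apply]
    · show e (e.symm (e x + 1)) = e x + 1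
      rw [e.apply_symm_apply]
  refine T.ext' fun x y => ⟨fun hxy => (ev (act4 e hk) u).fn x x y (h x) hxy, fun hxy => ?_⟩
  have hxy : x = y := hxy
  subst hxy
  exact h x

lemma ev_r (hk : (1 : ZMod k) ≠ 0) : ev (act4 e hk) r = pa k := by
  have e1 : ev (act4 e hk) [Sum.inl 1, Sum.inr 1] = pb e * ((pb e).sy * 1) := by
    simp only [ev_cons, ev_nil]
    rfl
  have e2 : ev (act4 e hk) [Sum.inl 0] = pa k * 1 := by
    simp only [ev_cons, ev_nil]
    rfl
  have e3 : pb e * (pb e).sy = 1 := T.total fun x => ⟨e.symm (e x + 1), e.apply_symm_apply _⟩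
  rw [r, ev_append, ev_append, ev_append, ev_inv, ev_u, e1, e2, T.sy_one]
  simp only [mul_one, e3, one_mul]

lemma pa_pow (k m : ℕ) (x y : ℕ × ZMod k) : (pa k ^ m).R x y ↔ y = (x.1, x.2 + m) := by
  induction m generalizing y with
  | zero =>
    rw [pow_zero]
    constructor
    · intro h
      have h : x = y := h
      subst h
      simp
    · intro h
      have h : y = x := by simpa using h
      exact h.symm
  | succ m ih =>
    rw [pow_succ]
    constructor
    · rintro ⟨z, h1, h2⟩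
      rw [ih] at h1
      have h2 : y = (z.1, z.2 + 1) := h2
      rw [h2, h1]
      push_cast
      rw [add_assoc]
    · intro h
      refine ⟨(x.1, x.2 + m), (ih _).2 rfl, ?_⟩
      show y = (x.1, x.2 + m + 1)
      rw [h]
      push_cast
      rw [add_assoc]

lemma ev_rpow (hk : (1 : ZMod k) ≠ 0) : ev (act4 e hk) (pw r k) = 1 := by
  rw [ev_pw, ev_r]
  refine T.ext' fun x y => ?_
  rw [pa_pow]
  constructor
  · intro h
    have h : y = x := by simpa using h
    exact h.symm
  · intro h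
    have h : x = y := h
    simp [h]

lemma not_unit_b (e : ℕ × ZMod k ≃ ℕ) (hk : (1 : ZMod k) ≠ 0) : ¬ IsUnit (val (pw r k) [Sum.inl 1]) := by
  intro h
  have h1 := isUnit_ev (act4 e hk) (ev_rpow e hk) h
  obtain ⟨v, hv⟩ := h1.exists_left_inv
  have e1 : ev (act4 e hk) [Sum.inl 1] = pb e * 1 := by
    simp only [ev_cons, ev_nil]
    rfl
  rw [e1, mul_one] at hv
  have h2 : (v * pb e).R (e.symm 0) (e.symm 0) := by rw [hv]; exact rfl
  obtain ⟨c, _, h3⟩ := h2
  have h3 : e (e.symm 0) = e c + 1 := h3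
  rw [e.apply_symm_apply] at h3
  omega

end example_

/-- There are a finite alphabet `A`, a non-empty word `r` over the letters and their formal
inverses, and a letter `b` which is a minimal invertible piece of `r` in `Inv⟨A ∣ r = 1⟩`, but does
not represent a unit of `Inv⟨A ∣ r ^ k = 1⟩` for any `k ≥ 2`; so, for every `k ≥ 2`, the sets of
minimal invertible pieces of `r ^ k` in `Inv⟨A ∣ r ^ k = 1⟩` and of `r` in `Inv⟨A ∣ r = 1⟩` are
different. -/
theorem result : ∃ (A : Type) (_ : Fintype A) (r : List (A ⊕ A)) (b : A), r ≠ [] ∧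
    [Sum.inl b] ∈ Pieces r ∧ ∀ k : ℕ, 2 ≤ k →
      ¬ IsUnit (val (pw r k) [Sum.inl b]) ∧ Pieces (pw r k) ≠ Pieces r := by
  refine ⟨L, inferInstance, r, 1, by simp [r], piece_b, fun k hk => ?_⟩
  have : NeZero k := ⟨by omega⟩
  have hk1 : (1 : ZMod k) ≠ 0 := by
    have : Fact (1 < k) := ⟨by omega⟩
    exact one_ne_zero
  obtain ⟨e⟩ := nonempty_equiv_of_countable (α := ℕ × ZMod k) (β := ℕ)
  have h1 := not_unit_b e hk1
  refine ⟨h1, fun heq => ?_⟩
  have h2 := piece_b
  rw [← heq] at h2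
  obtain ⟨_, p, s, _, hp, hpv, _⟩ := h2
  rw [val_append] at hpv
  obtain ⟨v, hv⟩ := hp
  rw [← hv] at hpv
  exact h1 ((Units.isUnit_units_mul v _).1 hpv)

end Pool.Agent.Results.MP_d4551b_al.PiecesDiffer
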